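import Pool.Agent.Helper88.EL.Stmts

/-!
# Orders of elements in an abelian group
-/

set_option autoImplicit false

namespace Pool.Agent.Helper64.EL

theorem prime_pow_dvd_of_dvd_lcm {p n a b : ℕ} (hp : p.Prime) (h : p ^ n ∣ Nat.lcm a b) :
    p ^ n ∣ a ∨ p ^ n ∣ b := by
  by_cases ha : a = 0
  · exact Or.inl (ha ▸ dvd_zero _)
  by_cases hb : b = 0
  · exact Or.inr (hb ▸ dvd_zero _)
  rw [hp.pow_dvd_iff_le_factorization (Nat.lcm_ne_zero ha hb), Nat.factorization_lcm ha hb] at h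
  rw [hp.pow_dvd_iff_le_factorization ha, hp.pow_dvd_iff_le_factorization hb]
  exact le_sup_iff.1 h

theorem exists_dvd_addOrderOf {G : Type} [AddCommGroup G] (m : ℕ) : ∀ a b : G, addOrderOf b = m →
    m ≠ 0 → ∃ j : ℤ, m ∣ addOrderOf (a + j • b) := by
  induction m using Nat.recOnPosPrimePosCoprime with
  | zero => intro a b _ h; exact absurd rfl h
  | one => intro a b _ _; exact ⟨0, one_dvd _⟩
  | prime_pow p n hp hn =>
    intro a b hb _
    have h1 : (Nat.lcm (addOrderOf (a + b)) (addOrderOf a)) • b = 0 := by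
      have h2 : b = (a + b) - a := by abel
      have h3 : (Nat.lcm (addOrderOf (a + b)) (addOrderOf a)) • (a + b) = 0 :=
        addOrderOf_dvd_iff_nsmul_eq_zero.1 (Nat.dvd_lcm_left _ _)
      have h4 : (Nat.lcm (addOrderOf (a + b)) (addOrderOf a)) • a = 0 :=
        addOrderOf_dvd_iff_nsmul_eq_zero.1 (Nat.dvd_lcm_right _ _)
      calc (Nat.lcm (addOrderOf (a + b)) (addOrderOf a)) • b
          = (Nat.lcm (addOrderOf (a + b)) (addOrderOf a)) • ((a + b) - a) := by rw [← h2]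
        _ = 0 := by rw [smul_sub, h3, h4, sub_zero]
    have h2 : p ^ n ∣ Nat.lcm (addOrderOf (a + b)) (addOrderOf a) :=
      hb ▸ addOrderOf_dvd_iff_nsmul_eq_zero.2 h1
    rcases prime_pow_dvd_of_dvd_lcm hp h2 with h | h
    · exact ⟨1, by rwa [one_zsmul]⟩
    · exact ⟨0, by rwa [zero_zsmul, add_zero]⟩
  | coprime m₁ m₂ h1 h2 hc ih1 ih2 =>
    intro a b hb hm
    have hm1 : m₁ ≠ 0 := by omega
    have hm2 : m₂ ≠ 0 := by omega
    have e1 : addOrderOf (m₂ • b) = m₁ := by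
      rw [addOrderOf_nsmul_of_dvd hm2 (hb ▸ dvd_mul_left _ _), hb, Nat.mul_div_cancel _ (by omega)]
    have e2 : addOrderOf (m₁ • b) = m₂ := by
      rw [addOrderOf_nsmul_of_dvd hm1 (hb ▸ dvd_mul_right _ _), hb,
        Nat.mul_div_cancel_left _ (by omega)]
    obtain ⟨j1, hj1⟩ := ih1 a (m₂ • b) e1 hm1
    obtain ⟨j2, hj2⟩ := ih2 (a + j1 • (m₂ • b)) (m₁ • b) e2 hm2
    refine ⟨j1 * m₂ + j2 * m₁, ?_⟩
    have h3 : a + (j1 * m₂ + j2 * m₁) • b = a + j1 • (m₂ • b) + j2 • (m₁ • b) := by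
      rw [add_zsmul, mul_zsmul, mul_zsmul, natCast_zsmul, natCast_zsmul]
      rw [add_assoc]
    rw [h3]
    refine hc.mul_dvd_of_dvd_of_dvd ?_ hj2
    have h4 : m₂ • (a + j1 • (m₂ • b) + j2 • (m₁ • b)) = m₂ • (a + j1 • (m₂ • b)) := by
      have h5 : m₂ • j2 • m₁ • b = 0 := by
        rw [smul_comm m₂ j2, smul_smul m₂ m₁ b, mul_comm m₂ m₁, ← hb, addOrderOf_nsmul_eq_zero,
          smul_zero]
      rw [smul_add m₂ (a + j1 • (m₂ • b)), h5, add_zero]
    have h6 : m₁ ∣ addOrderOf (m₂ • (a + j1 • (m₂ • b))) := by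
      have h7 : (addOrderOf (m₂ • (a + j1 • (m₂ • b))) * m₂) • (a + j1 • (m₂ • b)) = 0 := by
        rw [mul_smul, addOrderOf_nsmul_eq_zero]
      exact hc.dvd_of_dvd_mul_right (hj1.trans (addOrderOf_dvd_iff_nsmul_eq_zero.2 h7))
    rw [← h4] at h6
    exact h6.trans (addOrderOf_smul_dvd _)

open Pool.Agent.Helper88.EL in
/-- The order lemma. -/
theorem order : OrderStmt := by
  intro G _ a b _ hb
  exact exists_dvd_addOrderOf (addOrderOf b) a b rfl hb.addOrderOf_pos.ne'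

end Pool.Agent.Helper64.EL
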