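import Pool.Agent.Helper88.EL.Basic

/-!
# The walk (M9) for SL_2(ℤ[x,1/x]) = E_2 (MP_287ff4_al)
-/

set_option autoImplicit false

namespace Pool.Agent.Helper64.EL

open LaurentPolynomial Pool.Agent.Helper88.EL

theorem dt_Dm (n : ℤ) (p q : V) : dt ((Dm n).mulVec p) ((Dm n).mulVec q) = T n * dt p q := by
  rw [Dm_mulVec, Dm_mulVec]
  simp only [dt, Matrix.cons_val_zero, Matrix.cons_val_one]
  ring

theorem isInt_T_mul_iff {n : ℤ} {f : AQ} : IsInt ((T n : AQ) * f) ↔ IsInt f := by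
  constructor
  · intro h m
    obtain ⟨a, ha⟩ := h (m + n)
    rw [coeff_T_mul, add_sub_cancel_right] at ha
    exact ⟨a, ha⟩
  · intro h
    exact (isInt_T n).mul h

theorem exists_prim_e1 (hC : CovBasicStmt) {E : AddSubgroup Q2} (hE : Cov1 E) {v : Q2} (hv : v ≠ 0) :
    ∃ c : ℚ, 0 < c ∧ Prim E (c • v) := (hC E hE).1 v hv

/-- The move `D` preserves the class of lattices. -/
theorem isLat_D (hD : DStepStmt) (hC : CovBasicStmt) (L : AddSubgroup V) (hL : IsLat L) :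
    IsLat (cm (Dm 1) L) := by
  obtain ⟨a, ha, ha'⟩ := (hC _ hL.cov0).1 e1 e1_ne_zero
  obtain ⟨b, hb, hb'⟩ := (hC _ hL.covi).1 e2 e2_ne_zero
  obtain ⟨h0, hi, ht⟩ := hD L hL a b ha hb ha' hb'
  have hinv : ∀ p : V, (Dm 1).mulVec ((Dm (-1)).mulVec p) = p := by
    intro p
    rw [Matrix.mulVec_mulVec, ← Dm_add, add_neg_cancel, Dm_zero, Matrix.one_mulVec]
  have hinv' : ∀ p : V, (Dm (-1)).mulVec ((Dm 1).mulVec p) = p := by
    intro p
    rw [Matrix.mulVec_mulVec, ← Dm_add, neg_add_cancel, Dm_zero, Matrix.one_mulVec]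
  refine ⟨?_, ?_, ?_, ?_, h0, hi, ?_⟩
  · intro f hf p hp
    rw [mem_cm] at hp ⊢
    rw [Matrix.mulVec_smul]
    exact hL.smul f hf _ hp
  · intro p hp q hq
    rw [mem_cm] at hp hq
    have := hL.det _ hp _ hq
    rw [dt_Dm] at this
    exact isInt_T_mul_iff.1 this
  · intro p
    obtain ⟨n, hn, hn'⟩ := hL.tors ((Dm 1).mulVec p)
    refine ⟨n, hn, ?_⟩
    rw [mem_cm, Matrix.mulVec_smul]
    exact hn'
  · rintro l hl f hf w hw ⟨w', hw', he⟩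
    rw [mem_cm] at hw hw'
    have h1 : f • (Dm 1).mulVec w = l • (Dm 1).mulVec w' := by
      rw [← Matrix.mulVec_smul, he, Matrix.mulVec_smul]
    rcases hL.prime l hl f hf _ hw ⟨_, hw', h1⟩ with h | ⟨w'', hw'', he''⟩
    · exact Or.inl h
    · refine Or.inr ⟨(Dm (-1)).mulVec w'', ?_, ?_⟩
      · rw [mem_cm, hinv]
        exact hw''
      · rw [← Matrix.mulVec_smul, ← he'', hinv']
  · intro h
    rw [h, Nat.cast_zero] at ht
    have h2 : (tt L : ℚ) ≠ 0 := by exact_mod_cast hL.fin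
    exact (mul_ne_zero (mul_ne_zero ha.ne' hb.ne') h2) ht.symm

theorem walk_aux (hD : DStepStmt) (hT : TieStmt) (hB : BoundStmt) (hC : CovBasicStmt) (N : ℕ) :
    ∀ L, IsLat L → Prim (E0 L) e1 → Prim (Ei L) e2 → (2 ≤ ord L e1 ∨ 2 ≤ ord L e2) →
      Ri L e2 + R0 L e1 ≤ N →
  ∃ k : ℕ, 0 < k ∧ 
  tt (cm (Dm k) L) = tt L ∧
  Prim (E0 (cm (Dm k) L)) e2 ∧ Prim (Ei (cm (Dm k) L)) e1 ∧
  ¬ (Prim (E0 (cm (Dm k) L)) e1 ∧ Prim (Ei (cm (Dm k) L)) e2) ∧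
  ord (cm (Dm k) L) e1 = ord L e1 ∧ ord (cm (Dm k) L) e2 = ord L e2 ∧
  Ri (cm (Dm k) L) e2 * ord L e2 ^ k = Ri L e2 ∧
  R0 (cm (Dm k) L) e1 * ord L e1 ^ k = R0 L e1 := by
  induction N with
  | zero =>
    intro L hL _ _ _ hN
    exact absurd (Nat.eq_zero_of_add_eq_zero_right (Nat.le_zero.1 hN)) (hB L hL e2).2.1
  | succ N ih =>
    intro L hL h1 h2 h3 hN
    obtain ⟨t1, t2, t3, -, -, t4, t5, t6, t7⟩ := hT L hL h1 h2
    by_cases hP : Prim (E0 (cm (Dm 1) L)) e1 ∧ Prim (Ei (cm (Dm 1) L)) e2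
    · have hL' := isLat_D hD hC L hL
      have hlt : Ri (cm (Dm 1) L) e2 + R0 (cm (Dm 1) L) e1 ≤ N := by
        have p1 : 0 < ord L e1 := (hB L hL e1).2.2.2
        have p2 : 0 < ord L e2 := (hB L hL e2).2.2.2
        have q1 : 0 < Ri (cm (Dm 1) L) e2 := Nat.pos_of_ne_zero (hB _ hL' e2).2.1
        have q2 : 0 < R0 (cm (Dm 1) L) e1 := Nat.pos_of_ne_zero (hB _ hL' e1).2.2.1
        rw [← t6, ← t7] at hN
        rcases h3 with h3 | h3 <;> nlinarith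
      obtain ⟨k, hk, r1, r2, r3, r4, r5, r6, r7, r8⟩ :=
        ih (cm (Dm 1) L) hL' hP.1 hP.2 (by rwa [t4, t5]) hlt
      have hcm : cm (Dm k) (cm (Dm 1) L) = cm (Dm ((k + 1 : ℕ) : ℤ)) L := by
        rw [← cm_mul, ← Dm_add, Nat.cast_add, Nat.cast_one, add_comm]
      rw [hcm] at r1 r2 r3 r4 r5 r6 r7 r8
      refine ⟨k + 1, Nat.succ_pos _, r1.trans t1, r2, r3, r4, r5.trans t4, r6.trans t5, ?_, ?_⟩
      · rw [pow_succ, ← mul_assoc]
        rw [t5] at r7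
        rw [r7, t6]
      · rw [pow_succ, ← mul_assoc]
        rw [t4] at r8
        rw [r8, t7]
    · refine ⟨1, one_pos, ?_⟩
      rw [Nat.cast_one, pow_one, pow_one]
      exact ⟨t1, t2, t3, hP, t4, t5, t6, t7⟩

/-- M9: the walk. -/
theorem walk (hD : DStepStmt) (hT : TieStmt) (hB : BoundStmt) (hC : CovBasicStmt) : WalkStmt :=
  fun L hL h1 h2 h3 => walk_aux hD hT hB hC _ L hL h1 h2 h3 le_rfl

end Pool.Agent.Helper64.EL
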